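import Pool.Agent.Work.MP_14a437_ag.A.Schur
import Pool.Agent.Work.MP_14a437_ag.E.Rank

/-!
# A/Chi  (M) : the Euler form on an admissible abelian subcategory

`hom_zero_of_gt_two`: `dim Hom(X,Y[n]) = dim Hom(Y,X[2-n]) = 0` by `serre`, `IsAdm.hom_neg`, and a
finite dimensional space of dimension 0 is zero (`hom_finite`, `Module.finrank_zero_iff` / `finrank_eq_zero`).
`chi_adm`: only `n = 0, 1, 2` contribute to the finsum (`finsum_eq_sum_of_support_subset`), `hom² (X,Y) =
hom⁰(Y,X)` by `serre`, and `X⟦0⟧ ≅ X`.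
`chi_simple_ne`: `Hom(S,T) = Hom(T,S) = 0` by `schur`; `chi_simple_self`: `finrank_end`.
-/

open CategoryTheory CategoryTheory.Limits CategoryTheory.Pretriangulated

universe v u

namespace MP_14a437_ag

variable {C : Type u} [Category.{v} C] [Preadditive C] [HasZeroObject C] [HasShift C ℤ]
  [∀ n : ℤ, (shiftFunctor C n).Additive] [Pretriangulated C] [IsTriangulated C]

variable {k : Type*} [Field k] [Linear k C]

omit [IsTriangulated C] in
private theorem ch_zero (hCY : IsCY2 C k) {X Y : C} (h : Module.finrank k (X ⟶ Y) = 0)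
    (f : X ⟶ Y) : f = 0 := by
  have := hCY.hom_finite X Y
  have h1 : Subsingleton (X ⟶ Y) := Module.finrank_zero_iff.1 h
  exact Subsingleton.elim _ _

omit [HasZeroObject C] [HasShift C ℤ] [∀ n : ℤ, (shiftFunctor C n).Additive] [Pretriangulated C]
  [IsTriangulated C] in
private theorem ch_fin {X Y : C} (h : ∀ f : X ⟶ Y, f = 0) : Module.finrank k (X ⟶ Y) = 0 := by
  have h1 : Subsingleton (X ⟶ Y) := ⟨fun f g => by rw [h f, h g]⟩
  exact Module.finrank_zero_of_subsingleton

omit [HasZeroObject C] [∀ n : ℤ, (shiftFunctor C n).Additive] [Pretriangulated C]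
  [IsTriangulated C] in
private theorem ch_sh0 (X Y : C) :
    Module.finrank k (X ⟶ Y⟦(0 : ℤ)⟧) = Module.finrank k (X ⟶ Y) :=
  (Linear.homCongr k (Iso.refl X) ((shiftFunctorZero C ℤ).app Y)).finrank_eq

omit [IsTriangulated C] in
private theorem ch_two (hCY : IsCY2 C k) (X Y : C) :
    Module.finrank k (X ⟶ Y⟦(2 : ℤ)⟧) = Module.finrank k (Y ⟶ X) := by
  have h := hCY.serre X Y 2
  rw [show (2 - 2 : ℤ) = 0 from rfl, ch_sh0] at h
  exact h

omit [IsTriangulated C] in
theorem hom_zero_of_gt_two (hCY : IsCY2 C k) {H : ObjectProperty C} (hH : IsAdm H) {X Y : C}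
    (hX : H X) (hY : H Y) (n : ℤ) (hn : 2 < n) (f : X ⟶ Y⟦n⟧) : f = 0 := by
  apply ch_zero hCY
  rw [hCY.serre]
  exact ch_fin (hH.hom_neg Y X (2 - n) (by omega) hY hX)

omit [IsTriangulated C] in
theorem chi_adm (hCY : IsCY2 C k) {H : ObjectProperty C} (hH : IsAdm H) {X Y : C}
    (hX : H X) (hY : H Y) :
    chi k X Y = (Module.finrank k (X ⟶ Y) : ℤ) - (Module.finrank k (X ⟶ Y⟦(1 : ℤ)⟧) : ℤ) +
      (Module.finrank k (Y ⟶ X) : ℤ) := by
  unfold chi
  rw [finsum_eq_sum_of_support_subset (s := {0, 1, 2})]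
  · rw [Finset.sum_insert (by decide), Finset.sum_insert (by decide), Finset.sum_singleton,
      ch_sh0, ch_two hCY]
    have e0 : ((Int.negOnePow 0 : ℤˣ) : ℤ) = 1 := by simp
    have e1 : ((Int.negOnePow 1 : ℤˣ) : ℤ) = -1 := by simp
    have e2 : ((Int.negOnePow 2 : ℤˣ) : ℤ) = 1 := by
      rw [Int.negOnePow_even 2 (by decide)]
      rfl
    rw [e0, e1, e2]
    ring
  · intro n hn
    rw [Function.mem_support] at hn
    by_contra hcon
    apply hn
    have hn' : n < 0 ∨ 2 < n := by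
      by_contra h2
      apply hcon
      have h3 : n = 0 ∨ n = 1 ∨ n = 2 := by omega
      rcases h3 with rfl | rfl | rfl <;> simp
    have hz : Module.finrank k (X ⟶ Y⟦n⟧) = 0 := by
      apply ch_fin
      rcases hn' with h2 | h2
      · exact hH.hom_neg X Y n h2 hX hY
      · exact hom_zero_of_gt_two hCY hH hX hY n h2
    rw [hz, Nat.cast_zero, mul_zero]

theorem chi_simple_ne (hCY : IsCY2 C k) {H : ObjectProperty C} (hH : IsAdm H) {S T : C}
    (hS : TSimple H S) (hT : TSimple H T) (hne : IsEmpty (S ≅ T)) :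
    chi k S T ≤ 0 ∧ (chi k S T = 0 → ∀ (n : ℤ) (f : S ⟶ T⟦n⟧), f = 0) := by
  have h1 : Module.finrank k (S ⟶ T) = 0 := by
    apply ch_fin
    intro f
    by_contra hf
    have := schur hH hS hT f hf
    exact hne.false (asIso f)
  have h2 : Module.finrank k (T ⟶ S) = 0 := by
    apply ch_fin
    intro f
    by_contra hf
    have := schur hH hT hS f hf
    exact hne.false (asIso f).symm
  have h3 := chi_adm hCY hH hS.1 hT.1
  rw [h1, h2] at h3
  refine ⟨by omega, fun h4 n f => ?_⟩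
  have h5 : Module.finrank k (S ⟶ T⟦(1 : ℤ)⟧) = 0 := by omega
  rcases lt_trichotomy n 1 with h6 | h6 | h6
  · rcases lt_or_eq_of_le (show n ≤ 0 by omega) with h7 | h7
    · exact hH.hom_neg S T n h7 hS.1 hT.1 f
    · subst h7
      exact ch_zero hCY (by rw [ch_sh0, h1]) f
  · subst h6
    exact ch_zero hCY h5 f
  · rcases lt_or_eq_of_le (show 2 ≤ n by omega) with h7 | h7
    · exact hom_zero_of_gt_two hCY hH hS.1 hT.1 n h7 f
    · subst h7
      exact ch_zero hCY (by rw [ch_two hCY, h2]) f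

theorem chi_simple_self [IsAlgClosed k] (hCY : IsCY2 C k) {H : ObjectProperty C} (hH : IsAdm H)
    {S : C} (hS : TSimple H S) : chi k S S ≤ 2 := by
  rw [chi_adm hCY hH hS.1 hS.1, finrank_end hCY hH hS]
  push_cast
  have := Int.natCast_nonneg (Module.finrank k (S ⟶ S⟦(1 : ℤ)⟧))
  omega

end MP_14a437_ag
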