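import Pool.Agent.Work.MP_14a437_ag.Defs

/-!
# A/Schur  (M-L) : Schur's lemma in an admissible abelian subcategory

Let `A := H.FullSubcategory`, `ι := H.ι`.  By `Mathlib.CategoryTheory.Triangulated.TStructure.AbelianSubcategory`
(`AbelianSubcategory.abelian ι hι hA`, with `hι` from `IsAdm.hom_neg` and `hA : admissibleMorphism ι = ⊤`
from `IsAdm.adm`) the category `A` is abelian (`HasFiniteProducts A`: `H` is closed under finite
biproducts by `IsAdm.ext`, `IsAdm.zero`, `IsAdm.iso`; see `ObjectProperty.IsClosedUnderFiniteProducts` or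
build binary biproducts and a zero object and use `hasFiniteProducts_of_has_binary_and_terminal`).
A `TSimple` object `X` is `Simple` in `A`: for a mono `f : Y ⟶ X` let `π : X ⟶ Q` be its cokernel; by
`exists_distinguished_triangle_of_epi` there is a distinguished triangle `X₁ → X → Q` in `A`, and both
`Y` and `X₁` are kernels of `π` (`isLimitKernelForkOfDistTriang`).  TSimple: `X₁ = 0` (then `f = 0`) or
`Q = 0` (then `f` is epi, so iso).  Then `isIso_of_hom_simple`.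
A direct proof with one octahedron is also possible: `S -f-> T -g-> W`, `K[1] → W -β-> Q`; let `I` be the
fibre of `g ≫ β : T ⟶ Q`; the octahedron gives `K → S → I`, `I → T → Q` distinguished; show `H I`.
`finrank_end`: `finrank_endomorphism_eq_one` of `Mathlib.CategoryTheory.Preadditive.Schur`.
-/

open CategoryTheory CategoryTheory.Limits CategoryTheory.Pretriangulated

universe v u

namespace MP_14a437_ag

variable {C : Type u} [Category.{v} C] [Preadditive C] [HasZeroObject C] [HasShift C ℤ]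
  [∀ n : ℤ, (shiftFunctor C n).Additive] [Pretriangulated C] [IsTriangulated C]

private theorem hom_pos {H : ObjectProperty C} (hH : IsAdm H) {X Y : C} (hX : H X) (hY : H Y)
    {n : ℤ} (hn : 0 < n) (f : X⟦n⟧ ⟶ Y) : f = 0 := by
  apply (shiftFunctor C (-n)).map_injective
  rw [Functor.map_zero]
  have h1 : (shiftFunctorCompIsoId C n (-n) (by omega)).inv.app X ≫ f⟦-n⟧' = 0 :=
    hH.hom_neg X Y (-n) (by omega) hX hY _
  exact (Preadditive.IsIso.comp_left_eq_zero _ _).1 h1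

private theorem hom_two {H : ObjectProperty C} (hH : IsAdm H) {X Y : C} (hX : H X) (hY : H Y)
    (f : (X⟦(1 : ℤ)⟧)⟦(1 : ℤ)⟧ ⟶ Y) : f = 0 := by
  have h1 : (shiftFunctorAdd' C (1 : ℤ) 1 2 (by norm_num)).hom.app X ≫ f = 0 :=
    hom_pos hH hX hY (by norm_num) _
  exact (Preadditive.IsIso.comp_left_eq_zero _ _).1 h1

private theorem zero_of_shift {X : C} (h : (𝟙 (X⟦(1 : ℤ)⟧) : X⟦(1 : ℤ)⟧ ⟶ X⟦(1 : ℤ)⟧) = 0) :
    IsZero X := by
  rw [IsZero.iff_id_eq_zero]
  apply (shiftFunctor C (1 : ℤ)).map_injective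
  rw [CategoryTheory.Functor.map_id, Functor.map_zero]
  exact h

/-- the image belongs to `H` -/
private theorem mid_mem {H : ObjectProperty C} (hH : IsAdm H) {K S I T Q : C} {κ : K ⟶ S}
    {p : S ⟶ I} {q : I ⟶ K⟦(1 : ℤ)⟧} (h₁ : Triangle.mk κ p q ∈ distTriang C) {i : I ⟶ T}
    {π : T ⟶ Q} {δ : Q ⟶ I⟦(1 : ℤ)⟧} (h₂ : Triangle.mk i π δ ∈ distTriang C) (hK : H K)
    (hS : H S) (hT : H T) (hQ : H Q) : H I := by
  obtain ⟨K', Q', α, β, γ, h₃, hK', hQ'⟩ := hH.adm κ p q h₁ hK hS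
  have hα : α = 0 := by
    apply (shiftFunctor C (1 : ℤ)).map_injective
    rw [Functor.map_zero]
    have h4 : α ≫ i = 0 := hom_pos hH hK' hT (by norm_num) _
    obtain ⟨g, hg⟩ := Triangle.coyoneda_exact₁ _ h₂ (α⟦(1 : ℤ)⟧') (by
      show α⟦(1 : ℤ)⟧' ≫ i⟦(1 : ℤ)⟧' = 0
      rw [← Functor.map_comp, h4, Functor.map_zero])
    have hg0 : g = 0 := hom_two hH hK' hQ g
    refine hg.trans ?_
    rw [hg0]
    exact zero_comp
  have hz : IsZero (K'⟦(1 : ℤ)⟧) := by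
    apply zero_of_shift
    obtain ⟨g, hg⟩ := Triangle.coyoneda_exact₁ _ h₃ (𝟙 ((K'⟦(1 : ℤ)⟧)⟦(1 : ℤ)⟧)) (by
      show 𝟙 _ ≫ α⟦(1 : ℤ)⟧' = 0
      rw [hα, Functor.map_zero, comp_zero])
    have hg0 : g = 0 := hom_two hH hK' hQ' g
    refine hg.trans ?_
    rw [hg0]
    exact zero_comp
  have hβ : IsIso β := (Triangle.isZero₁_iff_isIso₂ _ h₃).1 hz
  have := hH.iso
  exact H.prop_of_iso (asIso β).symm hQ'

theorem schur {H : ObjectProperty C} (hH : IsAdm H) {S T : C} (hS : TSimple H S)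
    (hT : TSimple H T) (f : S ⟶ T) (hf : f ≠ 0) : IsIso f := by
  obtain ⟨W, g, h, h₁⟩ := distinguished_cocone_triangle f
  obtain ⟨K, Q, α, β, γ, h₂, hK, hQ⟩ := hH.adm f g h h₁ hS.1 hT.1
  obtain ⟨I, i, δ, h₃⟩ := distinguished_cocone_triangle₁ (g ≫ β)
  obtain ⟨m₁, m₃, hf', -, -, -, hm⟩ :=
    Triangulated.someOctahedron' (rfl : g ≫ β = g ≫ β) h₁ h₂ h₃
  -- the kernel
  obtain ⟨κ, hκ⟩ : ∃ κ : K ⟶ S, -κ⟦(1 : ℤ)⟧' = α ≫ h := by
    obtain ⟨κ, hκ⟩ := (shiftFunctor C (1 : ℤ)).map_surjective (-(α ≫ h))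
    exact ⟨κ, by rw [hκ, neg_neg]⟩
  have h₄ : Triangle.mk κ m₁ m₃ ∈ distTriang C := by
    rw [rotate_distinguished_triangle]
    show Triangle.mk m₁ m₃ (-κ⟦(1 : ℤ)⟧') ∈ distTriang C
    rw [hκ]
    exact hm
  have hI : H I := mid_mem hH h₄ h₃ hK hS.1 hT.1 hQ
  have hI0 : ¬ IsZero I := by
    intro h0
    apply hf
    rw [← hf', h0.eq_of_src i 0, comp_zero]
  have hK0 : IsZero K := (hS.2.2 K I κ m₁ m₃ h₄ hK hI).resolve_right hI0
  have hQ0 : IsZero Q := (hT.2.2 I Q i (g ≫ β) δ h₃ hI hQ).resolve_left hI0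
  have hK1 : IsZero (K⟦(1 : ℤ)⟧) := by
    rw [IsZero.iff_id_eq_zero, ← CategoryTheory.Functor.map_id, (IsZero.iff_id_eq_zero K).1 hK0,
      Functor.map_zero]
  have hW : IsZero W := Triangle.isZero₂_of_isZero₁₃ _ h₂ hK1 hQ0
  exact (Triangle.isZero₃_iff_isIso₁ _ h₁).1 hW

theorem finrank_end {k : Type*} [Field k] [IsAlgClosed k] [Linear k C] (hCY : IsCY2 C k)
    {H : ObjectProperty C} (hH : IsAdm H) {S : C} (hS : TSimple H S) :
    Module.finrank k (S ⟶ S) = 1 := by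
  have hfin : FiniteDimensional k (S ⟶ S) := hCY.hom_finite S S
  refine finrank_endomorphism_eq_one k (fun f => ⟨fun h1 h0 => ?_, fun h0 => schur hH hS hS f h0⟩)
  apply hS.2.1
  rw [IsZero.iff_id_eq_zero, ← IsIso.hom_inv_id f]
  generalize inv f = g
  rw [h0, zero_comp]

end MP_14a437_ag
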